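import Pool.Agent.Lib.MP_10cfb2_gt.GMe

/-!
# MP_10cfb2_gt: countable-dimensional spaces built from hereditarily Baire pieces
-/

namespace Pool.Agent.Results.MP_10cfb2_gt.HereditarilyBaire

open Pool.Agent.Lib.MP_10cfb2_gt

/-- Let `X` be a metric space of infinite large inductive dimension which is a countable union of
subspaces `B i` of finite large inductive dimension, and which has a `σ`-locally finite cover by
closed subspaces `F i s`, each of finite large inductive dimension or homeomorphic to an `F_σδ`
subset of a metric space without closed copies of the rationals. Then for every `n` there is a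
closed subspace of large inductive dimension exactly `n`. -/
theorem result (X : Type) [MetricSpace X] (ι : Type) (F : ℕ → ι → Set X) (B : ℕ → Set X)
    (hF : ∀ i s, IsClosed (F i s)) (hlf : ∀ i, LocallyFinite (F i))
    (hFcov : ∀ x, ∃ i s, x ∈ F i s) (hFc : ∀ i s, (∃ k, IndLT k (F i s)) ∨ RelFsd (F i s))
    (hBcov : ∀ x, ∃ i, x ∈ B i) (hB : ∀ i, ∃ k, IndLT k (B i))
    (hinf : ∀ k, ¬ IndLT k (Set.univ : Set X)) (n : ℕ) :
    ∃ A : Set X, IsClosed A ∧ IndLT (n + 1) A ∧ ¬ IndLT n A :=
  GM.main_rat F B hF hlf hFcov hFc hBcov hB hinf n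

end Pool.Agent.Results.MP_10cfb2_gt.HereditarilyBaire
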