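import Pool.Agent.Lib.MP_10cfb2_gt.GMd

/-!
# MP_10cfb2_gt: reduction of Q1 to nowhere finite-dimensional, non-separable spaces of finite type
-/

namespace Pool.Agent.Results.MP_10cfb2_gt.NowhereExample

open Pool.Agent.Lib.MP_10cfb2_gt

/-- If the metric space `X` is an example as in Q1 (for the number `n`), then it has a closed
subspace `Z` of finite type such that
* every locally closed subspace `P = E ∩ (O ∩ Z)` of `Z` has `Ind P < n` or infinite `Ind`; in the
second case `P` is not completely paracompact, and if `P` is an absolute `F_σδ`, then ONE wins the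
partition game on `P`;
* every countable closed cover of a nonempty open subspace of `Z` has a member of infinite `Ind`;
* for some uncountable cardinal `κ`, `Z` has a dense subset of `κ` points, and each closed subspace
of `Z` which lies in the closure of fewer than `κ` points has `Ind < n`.
Conversely, each subspace `A` of finite type of `X` is an example. -/
theorem result (n : ℕ) (X : Type) [MetricSpace X] :
    (Example n (Set.univ : Set X) → ∃ Z : Set X, IsClosed Z ∧ FiniteExample n Z ∧
      (∀ E O : Set X, IsClosed E → IsOpen O → IndLT n (E ∩ (O ∩ Z)) ∨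
        ((∀ k, ¬ IndLT k (E ∩ (O ∩ Z))) ∧ ¬ CompPara (E ∩ (O ∩ Z)) ∧
          (AbsFsd (E ∩ (O ∩ Z)) → OneWins ↥(E ∩ (O ∩ Z))))) ∧
      (∀ O : Set X, IsOpen O → (O ∩ Z).Nonempty →
        ∀ F : ℕ → Set X, (∀ i, IsClosed (F i)) → O ∩ Z ⊆ ⋃ i, F i →
          ∃ i, ∀ k, ¬ IndLT k (F i ∩ (O ∩ Z))) ∧
      ∃ κ : Cardinal, Cardinal.aleph0 < κ ∧ (∃ t ⊆ Z, Cardinal.mk t = κ ∧ Z ⊆ closure t) ∧
        ∀ s : Set X, Cardinal.mk s < κ → IndLT n (closure s ∩ Z)) ∧
    ∀ A : Set X, FiniteExample n A → Example n A := by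
  refine ⟨fun h => ?_, fun A h => GM.example_of_finite h⟩
  obtain ⟨Z, h1, h2, h3, h4, h5⟩ := GM.main_nowhere n h
  refine ⟨Z, h1, h2, h3, fun O hO hne F hF hc => ?_, h5⟩
  obtain ⟨i, hi⟩ := h4 O hO hne F hF hc
  exact ⟨i, ((h3 (F i) O (hF i) hO).resolve_left hi).1⟩

end Pool.Agent.Results.MP_10cfb2_gt.NowhereExample
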