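import Pool.Agent.Lib.MP_10cfb2_gt.GMc

/-!
# MP_10cfb2_gt: completely paracompact and absolute F-sigma-delta pieces
-/

namespace Pool.Agent.Results.MP_10cfb2_gt.ParacompactPieces

open Pool.Agent.Lib.MP_10cfb2_gt

/-- Let `X` be a metric space with small transfinite dimension and infinite large inductive
dimension. If `X` is a countable union of closed subspaces `F i`, each of finite large inductive
dimension or completely paracompact or homeomorphic to an `F_σδ` subset of a complete metric
space, and a countable union of arbitrary subspaces `B i`, each of finite large inductive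
dimension or completely paracompact, then for every `n` there is a closed subspace of large
inductive dimension exactly `n`. -/
theorem result (X : Type) [MetricSpace X] (F B : ℕ → Set X)
    (hF : ∀ i, IsClosed (F i)) (hFcov : ⋃ i, F i = Set.univ)
    (hFc : ∀ i, (∃ k, IndLT k (F i)) ∨ CompPara (F i) ∨ AbsFsd (F i))
    (hBcov : ⋃ i, B i = Set.univ) (hB : ∀ i, (∃ k, IndLT k (B i)) ∨ CompPara (B i))
    (hT : HasTrind (Set.univ : Set X)) (hinf : ∀ k, ¬ IndLT k (Set.univ : Set X)) (n : ℕ) :
    ∃ A : Set X, IsClosed A ∧ IndLT (n + 1) A ∧ ¬ IndLT n A :=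
  GM.main_trind F B hF hFcov hFc hBcov hB hT hinf n

end Pool.Agent.Results.MP_10cfb2_gt.ParacompactPieces
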