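import Pool.Agent.Lib.MP_10cfb2_gt.GMc

/-!
# MP_10cfb2_gt: the partition game

A metrizable space of infinite large inductive dimension without closed subspaces of some finite
dimension, built from absolute `F_σδ` (for example completely metrizable) closed pieces, is so
infinite-dimensional that player ONE wins the partition game on it; in particular it is not
countable-dimensional.
-/

namespace Pool.Agent.Results.MP_10cfb2_gt.PartitionGame

open Pool.Agent.Lib.MP_10cfb2_gt

/-- Let `X` be a metric space of infinite large inductive dimension which is a countable union of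
closed subspaces `F i`.
(1) If each `F i` has finite large inductive dimension or is homeomorphic to an `F_σδ` subset of a
complete metric space, and ONE has no winning strategy in the partition game on `X`, then for every
`n` there is a closed subspace of large inductive dimension exactly `n`.
(2) If `X` has small transfinite dimension, the same is true if some of the `F i` are completely
paracompact instead.
(3) If `X` is a countable union of subspaces of finite large inductive dimension, then ONE has no
winning strategy in the partition game on `X`. -/
theorem result (X : Type) [MetricSpace X] (F : ℕ → Set X) (hF : ∀ i, IsClosed (F i))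
    (hFcov : ⋃ i, F i = Set.univ) (hinf : ∀ k, ¬ IndLT k (Set.univ : Set X)) :
    ((∀ i, (∃ k, IndLT k (F i)) ∨ AbsFsd (F i)) → ¬ OneWins X →
      ∀ n, ∃ A : Set X, IsClosed A ∧ IndLT (n + 1) A ∧ ¬ IndLT n A) ∧
    ((∀ i, (∃ k, IndLT k (F i)) ∨ CompPara (F i) ∨ AbsFsd (F i)) →
      HasTrind (Set.univ : Set X) → ¬ OneWins X →
      ∀ n, ∃ A : Set X, IsClosed A ∧ IndLT (n + 1) A ∧ ¬ IndLT n A) ∧
    (∀ B : ℕ → Set X, ⋃ i, B i = Set.univ → (∀ i, ∃ k, IndLT k (B i)) → ¬ OneWins X) :=
  ⟨fun h hg n => GM.main_game F hF hFcov h hinf hg n,
    fun h hT hg n => GM.main_trind_game F hF hFcov h hT hinf hg n,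
    fun B h1 h2 => GM.main_cd B h1 h2⟩

end Pool.Agent.Results.MP_10cfb2_gt.PartitionGame
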